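import Pool.Agent.H654R5.All

set_option autoImplicit false

/-!
Distance sets of (4,s)-Salem sets: the conjectured threshold is wrong in every odd dimension.

Idea of the proof.  Let `K` be the field with `p` elements, `p = 1 mod 4`, and let `F` be its
quadratic extension, `q = p^2`, `θ ∈ F` not in `K`.  Take `E` to be the union of the dilates
`(θ + j) S`, `j ∈ J`, of the unit sphere `S` of `K^d`, where `J ⊂ K` has about `p^β` elements,
`0 < β < 1/2`.  Then `|E| ~ p^(d-1+β)`, the distances between points of `(θ + j) S` and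
`(θ + j') S` take at most `p` values, so there are at most `p^(1+2β) = o(q)` distances, and the
additive energy of `E` is `O(p^(3d-4+β))`.
-/

open Finset

namespace Pool.Agent.Results.MP_546591_co.OddDimensionDisproved

/-- The fourth additive energy `Λ₄(E)`: the number of `(x1, x2, x3, x4) ∈ E^4` with
`x1 + x2 = x3 + x4`. -/
def energy {G : Type} [AddCommGroup G] [DecidableEq G] (E : Finset G) : ℕ :=
  ((E ×ˢ E ×ˢ E ×ˢ E).filter (fun s => s.1 + s.2.1 = s.2.2.1 + s.2.2.2)).card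

/-- The distance set `Δ(E) = {‖x - y‖ : x, y ∈ E}`, where `‖x‖ = x_1^2 + ⋯ + x_d^2`. -/
def distSet {F : Type} [Field F] [DecidableEq F] {d : ℕ} (E : Finset (Fin d → F)) : Finset F :=
  (E ×ˢ E).image (fun s => ∑ i, (s.1 i - s.2 i) ^ 2)

/-- The property of `α` in the definition of `α(d,4,s)`: for every `C0 > 0` there are `C, c > 0`
such that, for every finite field `F` of odd characteristic (with `q` elements) and every
`E ⊂ F^d` with `Λ₄(E) ≤ C0 (q^(-d) |E|^4 + |E|^(4-4s))` and `|E| ≥ C q^α`, one has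
`|Δ(E)| ≥ c q`. -/
def Good (d : ℕ) (s α : ℝ) : Prop :=
  ∀ C0 : ℝ, 0 < C0 → ∃ C c : ℝ, 0 < C ∧ 0 < c ∧
    ∀ (F : Type) [Field F] [Fintype F] [DecidableEq F], (2 : F) ≠ 0 →
      ∀ E : Finset (Fin d → F),
        (energy E : ℝ) ≤ C0 * ((Fintype.card F : ℝ) ^ (-(d : ℝ)) * (E.card : ℝ) ^ 4 +
          (E.card : ℝ) ^ (4 - 4 * s)) →
        C * (Fintype.card F : ℝ) ^ α ≤ (E.card : ℝ) →
        c * (Fintype.card F : ℝ) ≤ ((distSet E).card : ℝ)

/-- `α(d,4,s)`. -/
noncomputable def alpha (d : ℕ) (s : ℝ) : ℝ := sInf {α : ℝ | Good d s α}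

/-- The conjectured value of `α(d,4,s)`. -/
noncomputable def conjectured (d : ℕ) (s : ℝ) : ℝ :=
  if d = 2 then 1 else
  if Even d then (if s ≤ (d + 2) / (4 * d) then (d : ℝ) / 2 else (d + 2) / (8 * s)) else
  (d + 1) / (8 * s)

/-- `α(d,4,s)` is the infimum of a nonempty set. -/
theorem good_nonempty (d : ℕ) (s : ℝ) : Good d s d := by
  intro C0 _
  refine ⟨2, 1, by norm_num, by norm_num, ?_⟩
  intro F _ _ _ _ E _ hE
  exfalso
  have h1 : (E.card : ℝ) ≤ (Fintype.card F : ℝ) ^ d := by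
    have : E.card ≤ Fintype.card F ^ d := by
      refine (Finset.card_le_univ E).trans ?_
      simp
    exact_mod_cast this
  have h2 : (0 : ℝ) < (Fintype.card F : ℝ) ^ d := by
    have : 0 < Fintype.card F := Fintype.card_pos
    positivity
  rw [Real.rpow_natCast] at hE
  linarith

/-- A lower bound for `α(d,4,s)` for all `d ≥ 3` and `s` in an interval; in every odd dimension
`d ≥ 3` it exceeds the conjectured value for `s` in a smaller interval; so the conjectured formula
for `α(d,4,s)` is false. -/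
theorem result :
    (∀ d : ℕ, 3 ≤ d → ∀ s : ℝ, (d : ℝ) / (4 * (d - 1)) < s → s < (2 * d + 3) / (4 * (2 * d - 1)) →
      (2 * (d : ℝ) - 3) / (2 * (3 - 4 * s)) ≤ alpha d s) ∧
    (∀ d : ℕ, 3 ≤ d → Odd d → ∀ s : ℝ, 3 * ((d : ℝ) + 1) / (4 * (3 * d - 2)) < s →
      s < (2 * d + 3) / (4 * (2 * d - 1)) → conjectured d s < alpha d s) ∧
    ¬ (∀ d : ℕ, 2 ≤ d → ∀ s : ℝ, 1 / 4 ≤ s → s ≤ 1 / 2 → alpha d s = conjectured d s) := by
  have key : ∀ d : ℕ, 3 ≤ d → ∀ s : ℝ, (d : ℝ) / (4 * (d - 1)) < s →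
      s < (2 * d + 3) / (4 * (2 * d - 1)) →
      (2 * (d : ℝ) - 3) / (2 * (3 - 4 * s)) ≤ alpha d s := by
    intro d hd s h1 h2
    apply le_csInf ⟨(d : ℝ), good_nonempty d s⟩
    intro α hα
    exact Pool.H654R5.final_lower d hd s h1 h2 α hα
  have key2 : ∀ d : ℕ, 3 ≤ d → Odd d → ∀ s : ℝ, 3 * ((d : ℝ) + 1) / (4 * (3 * d - 2)) < s →
      s < (2 * d + 3) / (4 * (2 * d - 1)) → conjectured d s < alpha d s := by
    intro d hd hodd s h1 h2
    have hd3 : (3 : ℝ) ≤ d := by exact_mod_cast hd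
    have h0 : (d : ℝ) / (4 * (d - 1)) < s := by
      refine lt_of_le_of_lt ?_ h1
      rw [div_le_div_iff₀ (by linarith) (by linarith)]
      nlinarith
    have hc : conjectured d s = (d + 1) / (8 * s) := by
      unfold conjectured
      rw [if_neg (by omega), if_neg (by rw [Nat.not_even_iff_odd]; exact hodd)]
    rw [hc]
    exact lt_of_lt_of_le (Pool.H654R5.compare d hd s h1 h2) (key d hd s h0 h2)
  refine ⟨key, key2, ?_⟩
  intro h
  have h1 := key2 3 le_rfl (by decide) (7 / 16) (by norm_num) (by norm_num)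
  have h2 := h 3 (by norm_num) (7 / 16) (by norm_num) (by norm_num)
  linarith

end Pool.Agent.Results.MP_546591_co.OddDimensionDisproved
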